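import Pool.Agent.N496.LT.Stm

/-!
# Project LT: residual finiteness of the kernel of `W → (ℤ/2)^V`
-/

set_option autoImplicit false

noncomputable section

namespace Pool.Agent.U171.LT

open Pool.Agent.W907.SG Pool.Agent.W461.SGN Pool.Agent.N496.LT

/-- A countable group in which every nontrivial element is outside of some normal subgroup of finite index. -/
theorem resFin_of {Γ : Type} [Group Γ] [Countable Γ]
    (h : ∀ g : Γ, g ≠ 1 → ∃ K : Subgroup Γ, K.Normal ∧ K.FiniteIndex ∧ g ∉ K) : ResFin Γ := by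
  classical
  have h' : ∀ g : Γ, ∃ K : Subgroup Γ, K.Normal ∧ K.FiniteIndex ∧ (g ≠ 1 → g ∉ K) := by
    intro g
    by_cases hg : g = 1
    · exact ⟨⊤, inferInstance, inferInstance, fun h0 => absurd hg h0⟩
    · obtain ⟨K, h1, h2, h3⟩ := h g hg
      exact ⟨K, h1, h2, fun _ => h3⟩
  choose K hK1 hK2 hK3 using h'
  obtain ⟨e, he⟩ := exists_surjective_nat Γ
  refine ⟨fun i => ⨅ j : Fin (i + 1), K (e j), fun i => ?_, fun i => ?_, ?_, ?_⟩
  · exact Subgroup.normal_iInf_normal fun j => hK1 _
  · exact Subgroup.finiteIndex_iInf fun j => hK2 _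
  · intro a b hab
    exact le_iInf fun j => iInf_le (fun j : Fin (b + 1) => K (e j)) (Fin.castLE (by omega) j)
  · rw [eq_bot_iff]
    intro g hg
    rw [Subgroup.mem_bot]
    by_contra hne
    obtain ⟨i, rfl⟩ := he g
    rw [Subgroup.mem_iInf] at hg
    have h1 := hg i
    rw [Subgroup.mem_iInf] at h1
    have h2 := h1 (Fin.last i)
    rw [Fin.val_last] at h2
    exact hK3 _ hne h2

/-- elements of the group are outside of normal subgroups of finite index -/
theorem sep {V : Type} [Finite V] (G : SimpleGraph V) (g : W G) (hg : g ≠ 1) :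
    ∃ K : Subgroup (W G), K.Normal ∧ K.FiniteIndex ∧ g ∉ K := by
  classical
  obtain ⟨Y, _, ⟨y0⟩, P, ev, h1, h2, -, h4⟩ := Pool.Agent.W461.SGN.nil V G {g} (by simpa using hg.symm)
  let φ : W G →* Equiv.Perm Y :=
    { toFun := fun w => ⟨fun y => ev y w⁻¹, fun y => ev y w, fun y => by
          show ev (ev y w⁻¹) w = y
          rw [← h2, inv_mul_cancel, h1], fun y => by
          show ev (ev y w) w⁻¹ = y
          rw [← h2, mul_inv_cancel, h1]⟩
      map_one' := by
        ext y
        show ev y (1 : W G)⁻¹ = y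
        rw [inv_one, h1]
      map_mul' := fun a b => by
        ext y
        show ev y (a * b)⁻¹ = ev (ev y b⁻¹) a⁻¹
        rw [mul_inv_rev, h2] }
  refine ⟨φ.ker, inferInstance, ?_, fun h => ?_⟩
  · exact Subgroup.finiteIndex_ker φ
  · rw [MonoidHom.mem_ker] at h
    have h5 : ev y0 g⁻¹ = y0 := congrFun (congrArg (fun p : Equiv.Perm Y => (p : Y → Y)) h) y0
    apply h4 g (by simp) y0
    calc ev y0 g = ev (ev y0 g⁻¹) g := by rw [h5]
      _ = y0 := by rw [← h2, inv_mul_cancel, h1]

instance countable_W {V : Type} [Countable V] (G : SimpleGraph V) : Countable (W G) :=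
  (cox G).toCoxeterSystem.wordProd_surjective.countable

/-- **P4R** -/
theorem p4r : P4R := by
  intro V _ G
  apply resFin_of
  intro g hg
  obtain ⟨K, h1, h2, h3⟩ := sep G (g : W G) (fun h => hg (Subtype.ext h))
  exact ⟨K.subgroupOf (th G).ker, Subgroup.normal_subgroupOf, inferInstance, h3⟩

end Pool.Agent.U171.LT
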