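import Pool.Agent.N496.CV.ConvB
import Pool.Agent.U171.LT.P4R

/-!
# Project LT: acyclicity of the Davis complex

If the Davis complex has no nonzero `ℓ²` harmonic chains then the complex `davis G` is det-`L²`-acyclic.
-/

set_option autoImplicit false

open scoped InnerProductSpace Matrix

noncomputable section

namespace Pool.Agent.U171.LT

open Pool.Agent.W907.SG Pool.Agent.W461.SGN Pool.Agent.N496.LT Pool.Agent.Helper993.FK Pool.Agent.Helper993.Delta
  Pool.Agent.N496.CV Pool.Agent.N496.CV.CB Pool.Agent.TH630.Tor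

section Lam

variable {Γ R R' : Type} [Group Γ] [AddCommGroup R] [AddCommGroup R']

/-- the additive extension of a function on the group to the integral group ring -/
def Lam (u : Γ → R) : MonoidAlgebra ℤ Γ →+ R where
  toFun a := a.coeff.sum fun γ n => n • u γ
  map_zero' := by simp
  map_add' a b := by
    rw [MonoidAlgebra.coeff_add]
    exact Finsupp.sum_add_index' (fun _ => zero_smul _ _) (fun _ _ _ => add_smul _ _ _)

omit [Group Γ] in
theorem Lam_apply (u : Γ → R) (a : MonoidAlgebra ℤ Γ) : Lam u a = a.coeff.sum fun γ n => n • u γ := rfl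

omit [Group Γ] in
theorem Lam_single (u : Γ → R) (γ : Γ) (n : ℤ) : Lam u (MonoidAlgebra.single γ n) = n • u γ := by
  show (MonoidAlgebra.single γ n).coeff.sum (fun γ n => n • u γ) = _
  rw [MonoidAlgebra.coeff_single, Finsupp.sum_single_index (by simp)]

theorem Lam_one (u : Γ → R) : Lam u 1 = u 1 := by
  rw [MonoidAlgebra.one_def, Lam_single, one_smul]

omit [Group Γ] in
theorem map_Lam (φ : R →+ R') (u : Γ → R) (a : MonoidAlgebra ℤ Γ) : φ (Lam u a) = Lam (fun γ => φ (u γ)) a := by
  rw [Lam_apply, Lam_apply, map_finsuppSum]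
  exact Finsupp.sum_congr fun γ _ => map_zsmul φ _ _

omit [Group Γ] in
theorem Lam_of_zero (a : MonoidAlgebra ℤ Γ) : Lam (fun _ : Γ => (0 : R)) a = 0 := by
  rw [Lam_apply]
  simp

end Lam

section coords

variable {Γ : Type} [Group Γ] {r s : ℕ}

theorem toQ_add' (a b : MonoidAlgebra ℤ Γ) : toQ (a + b) = toQ a + toQ b :=
  map_add (MonoidAlgebra.mapRingHom Γ (Int.castRingHom ℚ)) a b

theorem toQ_zero' : toQ (0 : MonoidAlgebra ℤ Γ) = 0 :=
  map_zero (MonoidAlgebra.mapRingHom Γ (Int.castRingHom ℚ))

theorem toQ_single' (g : Γ) (n : ℤ) : toQ (MonoidAlgebra.single g n) = MonoidAlgebra.single g (n : ℚ) := by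
  show MonoidAlgebra.mapRingHom Γ (Int.castRingHom ℚ) (MonoidAlgebra.single g n) = _
  simp

theorem coord_sc (i : Fin r) (j j' : Fin s) (a : MonoidAlgebra ℤ Γ) (x : L2Pow Γ r) (h : Γ) :
    coord (sc i j (toQ a) x) j' h = if j' = j then Lam (fun γ => coord x i (h * γ⁻¹)) a else 0 := by
  induction a using MonoidAlgebra.induction_linear with
  | zero => rw [toQ_zero', sc_zero, map_zero, _root_.zero_apply, coord_zero, ite_self]
  | add a b h1 h2 =>
    rw [toQ_add', sc_add, _root_.add_apply, coord_add, h1, h2, map_add]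
    split_ifs <;> simp
  | single g c =>
    rw [toQ_single', sc_single, _root_.smul_apply, coord_smul, coord_shift, Lam_single]
    split_ifs <;> simp

theorem coord_sc_adj (i : Fin r) (j : Fin s) (i' : Fin r) (a : MonoidAlgebra ℤ Γ) (y : L2Pow Γ s) (h : Γ) :
    coord (sc j i (Pool.Agent.Helper993.FK.invol (toQ a)) y) i' h =
      if i' = i then Lam (fun γ => coord y j (h * γ)) a else 0 := by
  induction a using MonoidAlgebra.induction_linear with
  | zero =>
    rw [toQ_zero', Pool.Agent.Helper993.FK.invol, MonoidAlgebra.mapDomain_zero, sc_zero, map_zero,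
      _root_.zero_apply, coord_zero, ite_self]
  | add a b h1 h2 =>
    unfold Pool.Agent.Helper993.FK.invol at h1 h2 ⊢
    rw [toQ_add', MonoidAlgebra.mapDomain_add, sc_add, _root_.add_apply, coord_add, h1, h2, map_add]
    split_ifs <;> simp
  | single g c =>
    rw [toQ_single', Pool.Agent.Helper993.FK.invol, MonoidAlgebra.mapDomain_single, sc_single,
      _root_.smul_apply, coord_smul, coord_shift, Lam_single]
    split_ifs <;> simp

theorem coord_rMul (A : Matrix (Fin r) (Fin s) (MonoidAlgebra ℤ Γ)) (x : L2Pow Γ r) (j : Fin s) (h : Γ) :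
    coord (rMul (A.map toQ) x) j h = ∑ i, Lam (fun γ => coord x i (h * γ⁻¹)) (A i j) := by
  rw [rMul_eq_sc, _root_.sum_apply, coord_sum]
  refine Finset.sum_congr rfl fun i _ => ?_
  rw [_root_.sum_apply, coord_sum]
  simp only [Matrix.map_apply, coord_sc]
  rw [Finset.sum_ite_eq Finset.univ j, if_pos (Finset.mem_univ _)]

theorem coord_adjoint (A : Matrix (Fin r) (Fin s) (MonoidAlgebra ℤ Γ)) (y : L2Pow Γ s) (i : Fin r) (h : Γ) :
    coord (ContinuousLinearMap.adjoint (rMul (A.map toQ)) y) i h = ∑ j, Lam (fun γ => coord y j (h * γ)) (A i j) := by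
  rw [adjoint_rMul, rMul_eq_sc, _root_.sum_apply, coord_sum]
  refine Finset.sum_congr rfl fun j _ => ?_
  rw [_root_.sum_apply, coord_sum]
  have h1 : ∀ i', coord (sc j i' (adjQ (A.map toQ) j i') y) i h =
      if i = i' then Lam (fun γ => coord y j (h * γ)) (A i' j) else 0 := fun i' =>
    coord_sc_adj i' j i (A i' j) y h
  simp only [h1]
  rw [Finset.sum_ite_eq Finset.univ i (fun i' => Lam (fun γ => coord y j (h * γ)) (A i' j)),
    if_pos (Finset.mem_univ _)]

end coords

section ext

variable {Γ : Type} [Group Γ] (C : GCx Γ)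

/-- a vector of degree `n` as a function on the cells of all degrees -/
def ext (n : ℕ) (v : L2Pow Γ (C.toFree.rank n)) (i : C.ι) (g : Γ) : ℂ :=
  if h : C.deg i = n then coord v (Fintype.equivFin {i : C.ι // C.deg i = n} ⟨i, h⟩) g else 0

theorem ext_deg (n : ℕ) (v : L2Pow Γ (C.toFree.rank n)) (i : C.ι) (hi : C.deg i ≠ n) (g : Γ) :
    ext C n v i g = 0 := dif_neg hi

theorem ext_symm (n : ℕ) (v : L2Pow Γ (C.toFree.rank n)) (b : Fin (Fintype.card {i : C.ι // C.deg i = n})) (g : Γ) :
    ext C n v ((Fintype.equivFin {i : C.ι // C.deg i = n}).symm b).1 g = coord v b g := by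
  unfold ext
  rw [dif_pos ((Fintype.equivFin {i : C.ι // C.deg i = n}).symm b).2]
  congr 1
  exact (Fintype.equivFin {i : C.ι // C.deg i = n}).apply_symm_apply b

theorem ext_zero (n : ℕ) (v : L2Pow Γ (C.toFree.rank n)) (h : ∀ i g, ext C n v i g = 0) : v = 0 := by
  apply coord_ext
  intro j g
  rw [coord_zero]
  exact (ext_symm C n v j g).symm.trans (h _ _)

theorem ext_summable (n : ℕ) (v : L2Pow Γ (C.toFree.rank n)) (i : C.ι) : Summable fun g => ‖ext C n v i g‖ ^ 2 := by
  by_cases h : C.deg i = n
  · have h1 := coord_summable v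
    have h2 : Function.Injective fun g : Γ =>
        ((Fintype.equivFin {i : C.ι // C.deg i = n} ⟨i, h⟩, g) : Fin (C.toFree.rank n) × Γ) := by
      intro a b hab
      exact (Prod.ext_iff.1 hab).2
    have h3 := h1.comp_injective h2
    refine h3.congr fun g => ?_
    show ‖coord v (Fintype.equivFin {i : C.ι // C.deg i = n} ⟨i, h⟩) g‖ ^ ((2 : ENNReal).toReal) = ‖ext C n v i g‖ ^ 2
    unfold ext
    rw [dif_pos h]
    norm_num
  · simp only [ext_deg C n v i h]
    simp

/-- the boundary in terms of functions -/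
theorem ext_d (n : ℕ) (v : L2Pow Γ (C.toFree.rank (n + 1))) (hv : C.toFree.l2d n v = 0) (j : C.ι) (g : Γ) :
    ∑ i, Lam (fun γ => ext C (n + 1) v i (g * γ⁻¹)) (C.D i j) = 0 := by
  by_cases hj : C.deg j = n
  · obtain ⟨b, hb⟩ : ∃ b, ((Fintype.equivFin {i : C.ι // C.deg i = n}).symm b) = ⟨j, hj⟩ :=
      (Fintype.equivFin {i : C.ι // C.deg i = n}).symm.surjective _
    have h0 : coord (rMul ((C.toFree.d n).map toQ) v) b g = 0 := by
      have : rMul ((C.toFree.d n).map toQ) v = 0 := hv
      rw [this]
      rfl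
    have h1 := (coord_rMul (C.toFree.d n) v b g).symm.trans h0
    rw [← sum_deg C.deg (n + 1) (fun i => Lam (fun γ => ext C (n + 1) v i (g * γ⁻¹)) (C.D i j)) (fun k hk => by
      simp only [ext_deg C (n + 1) v k hk, Lam_of_zero]), ← (Fintype.equivFin {i : C.ι // C.deg i = n + 1}).symm.sum_comp]
    refine Eq.trans (Finset.sum_congr rfl fun a _ => ?_) h1
    simp only [ext_symm]
    show _ = Lam (fun γ => coord v a (g * γ⁻¹)) (C.D ((Fintype.equivFin {i : C.ι // C.deg i = n + 1}).symm a).1
      ((Fintype.equivFin {i : C.ι // C.deg i = n}).symm b).1)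
    rw [hb]
  · refine Finset.sum_eq_zero fun i _ => ?_
    by_cases h0 : C.D i j = 0
    · rw [h0, map_zero]
    · have h1 := C.D_deg i j h0
      have h2 : C.deg i ≠ n + 1 := fun h => hj (by omega)
      simp only [ext_deg C (n + 1) v i h2, Lam_of_zero]

/-- the boundary in degree zero -/
theorem ext_d0 (v : L2Pow Γ (C.toFree.rank 0)) (j : C.ι) (g : Γ) :
    ∑ i, Lam (fun γ => ext C 0 v i (g * γ⁻¹)) (C.D i j) = 0 := by
  refine Finset.sum_eq_zero fun i _ => ?_
  by_cases h0 : C.D i j = 0
  · rw [h0, map_zero]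
  · have h1 := C.D_deg i j h0
    have h2 : C.deg i ≠ 0 := by omega
    simp only [ext_deg C 0 v i h2, Lam_of_zero]

/-- the adjoint of the boundary in terms of functions -/
theorem ext_adj (n : ℕ) (v : L2Pow Γ (C.toFree.rank n))
    (hv : ContinuousLinearMap.adjoint (C.toFree.l2d n) v = 0) (i : C.ι) (g : Γ) :
    ∑ j, Lam (fun γ => ext C n v j (g * γ)) (C.D i j) = 0 := by
  by_cases hi : C.deg i = n + 1
  · obtain ⟨a, ha⟩ : ∃ a, ((Fintype.equivFin {i : C.ι // C.deg i = n + 1}).symm a) = ⟨i, hi⟩ :=
      (Fintype.equivFin {i : C.ι // C.deg i = n + 1}).symm.surjective _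
    have h0 : coord (ContinuousLinearMap.adjoint (rMul ((C.toFree.d n).map toQ)) v) a g = 0 := by
      have : ContinuousLinearMap.adjoint (rMul ((C.toFree.d n).map toQ)) v = 0 := hv
      rw [this]
      rfl
    have h1 := (coord_adjoint (C.toFree.d n) v a g).symm.trans h0
    rw [← sum_deg C.deg n (fun j => Lam (fun γ => ext C n v j (g * γ)) (C.D i j)) (fun k hk => by
      simp only [ext_deg C n v k hk, Lam_of_zero]), ← (Fintype.equivFin {i : C.ι // C.deg i = n}).symm.sum_comp]
    refine Eq.trans (Finset.sum_congr rfl fun b _ => ?_) h1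
    simp only [ext_symm]
    show _ = Lam (fun γ => coord v b (g * γ)) (C.D ((Fintype.equivFin {i : C.ι // C.deg i = n + 1}).symm a).1
      ((Fintype.equivFin {i : C.ι // C.deg i = n}).symm b).1)
    rw [ha]
  · refine Finset.sum_eq_zero fun j _ => ?_
    by_cases h0 : C.D i j = 0
    · rw [h0, map_zero]
    · have h1 := C.D_deg i j h0
      have h2 : C.deg j ≠ n := fun h => hi (by omega)
      simp only [ext_deg C n v j h2, Lam_of_zero]

end ext

section davis

variable {V : Type} [Fintype V] [LinearOrder V] {G : SimpleGraph V}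

theorem mulD_Lam {R : Type} [AddCommGroup R] (U : (davis G).ι → (th G).ker → R) (j : (davis G).ι) (g : (th G).ker) :
    mulD U j g = ∑ i, Lam (fun γ => U i (g * γ⁻¹)) ((davis G).D i j) := rfl

theorem Lam_D {R : Type} [AddCommGroup R] (u : (th G).ker → R) (i j : (davis G).ι) :
    Lam u ((davis G).D i j) =
      ∑ t ∈ i.1.1, if j.1.1 = i.1.1.erase t then sg t (i.1.1.erase t) •
        ((if j.1.2 = i.1.2 then u 1 else 0) - (if j.1.2 = insert t i.1.2 then
          u (gm G (rep G i.1.2 * (cox G).simple t)) else 0)) else 0 := by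
  classical
  have h1 : (davis G).D i j = ∑ t ∈ i.1.1, if j.1.1 = i.1.1.erase t then
    ((sg t (i.1.1.erase t) : ℤ) : MonoidAlgebra ℤ (th G).ker) *
      ((if j.1.2 = i.1.2 then 1 else 0) - (if j.1.2 = insert t i.1.2 then
        MonoidAlgebra.single (gm G (rep G i.1.2 * (cox G).simple t)) 1 else 0)) else 0 := by
    unfold davis
    simp only [Matrix.of_apply]
    all_goals (refine Finset.sum_congr rfl fun t _ => ?_; split_ifs <;> rfl)
  rw [h1, map_sum]
  refine Finset.sum_congr rfl fun t _ => ?_
  split_ifs with h2 h3 h4 h4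
  · rw [← zsmul_eq_mul, map_zsmul, map_sub, Lam_one, Lam_single, one_smul]
  · rw [← zsmul_eq_mul, map_zsmul, map_sub, Lam_one, map_zero]
  · rw [← zsmul_eq_mul, map_zsmul, map_sub, Lam_single, map_zero, one_smul]
  · rw [← zsmul_eq_mul, map_zsmul, map_sub, map_zero]
  · rw [map_zero]

/-- the coboundary -/
theorem delta_eq (U : (davis G).ι → (th G).ker → ℝ) (i : (davis G).ι) (g : (th G).ker) :
    ∑ j, Lam (fun γ => U j (g * γ)) ((davis G).D i j) = ∑ t ∈ i.1.1, sg t (i.1.1.erase t) •
      (Psi U (i.1.1.erase t) ((g : W G) * rep G i.1.2) -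
        Psi U (i.1.1.erase t) ((g : W G) * rep G i.1.2 * (cox G).simple t)) := by
  classical
  have hT : G.IsClique (i.1.1 : Set V) := i.2.1
  have hd : Disjoint i.1.1 i.1.2 := i.2.2
  have e0 : ∀ j : (davis G).ι, Lam (fun γ => U j (g * γ)) ((davis G).D i j) =
      ∑ t ∈ i.1.1, if j.1.1 = i.1.1.erase t then sg t (i.1.1.erase t) •
        ((if j.1.2 = i.1.2 then U j g else 0) - (if j.1.2 = insert t i.1.2 then
          U j (g * gm G (rep G i.1.2 * (cox G).simple t)) else 0)) else 0 := by
    intro j
    rw [Lam_D]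
    simp only [mul_one]
  rw [Finset.sum_congr rfl fun j _ => e0 j, Finset.sum_comm]
  obtain ⟨T, hTe⟩ : ∃ T, T = i.1.1 := ⟨_, rfl⟩
  obtain ⟨A, hAe⟩ : ∃ A, A = i.1.2 := ⟨_, rfl⟩
  rw [← hTe, ← hAe] at hd ⊢
  rw [← hTe] at hT
  refine Finset.sum_congr rfl fun t ht => ?_
  have htA : t ∉ A := fun h => Finset.disjoint_left.1 hd ht h
  have hcl : G.IsClique ((T.erase t : Finset V) : Set V) :=
    hT.subset (by rw [Finset.coe_erase]; exact Set.sdiff_subset)
  have hd1 : Disjoint (T.erase t) A := Finset.disjoint_of_subset_left (Finset.erase_subset t T) hd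
  have hd2 : Disjoint (T.erase t) (insert t A) := by
    rw [Finset.disjoint_insert_right]
    exact ⟨Finset.notMem_erase t T, hd1⟩
  obtain ⟨c3, hc3⟩ : ∃ c : (davis G).ι, c = ⟨(T.erase t, A), hcl, hd1⟩ := ⟨_, rfl⟩
  obtain ⟨c4, hc4⟩ : ∃ c : (davis G).ι, c = ⟨(T.erase t, insert t A), hcl, hd2⟩ := ⟨_, rfl⟩
  have hne : A ≠ insert t A := fun h => htA (h ▸ Finset.mem_insert_self t A)
  have hpt : ∀ j : (davis G).ι, (if j.1.1 = T.erase t then sg t (T.erase t) •
        ((if j.1.2 = A then U j g else 0) - (if j.1.2 = insert t A then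
          U j (g * gm G (rep G A * (cox G).simple t)) else 0)) else 0) =
      (if j = c3 then sg t (T.erase t) • U c3 g else 0) -
      (if j = c4 then sg t (T.erase t) • U c4 (g * gm G (rep G A * (cox G).simple t)) else 0) := by
    intro j
    have i3 : j = c3 ↔ j.1.1 = T.erase t ∧ j.1.2 = A := by
      constructor
      · rintro rfl
        exact ⟨congrArg (fun c : (davis G).ι => c.1.1) hc3, congrArg (fun c : (davis G).ι => c.1.2) hc3⟩
      · intro h
        rw [hc3]
        exact Subtype.ext (Prod.ext h.1 h.2)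
    have i4 : j = c4 ↔ j.1.1 = T.erase t ∧ j.1.2 = insert t A := by
      constructor
      · rintro rfl
        exact ⟨congrArg (fun c : (davis G).ι => c.1.1) hc4, congrArg (fun c : (davis G).ι => c.1.2) hc4⟩
      · intro h
        rw [hc4]
        exact Subtype.ext (Prod.ext h.1 h.2)
    by_cases h1 : j.1.1 = T.erase t
    · rw [if_pos h1]
      by_cases h2 : j.1.2 = A
      · have h3 : j = c3 := i3.2 ⟨h1, h2⟩
        rw [if_pos h2, if_neg (by rw [h2]; exact hne), if_pos h3,
          if_neg (fun h => hne (h2.symm.trans (i4.1 h).2)), sub_zero, sub_zero, h3]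
      · by_cases h3 : j.1.2 = insert t A
        · have h4 : j = c4 := i4.2 ⟨h1, h3⟩
          rw [if_neg h2, if_pos h3, if_neg (fun h => h2 (i3.1 h).2), if_pos h4, zero_sub, zero_sub, smul_neg, h4]
        · rw [if_neg h2, if_neg h3, if_neg (fun h => h2 (i3.1 h).2),
            if_neg (fun h => h3 (i4.1 h).2)]
          simp only [sub_zero, smul_zero]
    · rw [if_neg h1, if_neg (fun h => h1 (i3.1 h).1), if_neg (fun h => h1 (i4.1 h).1), sub_zero]
  rw [Finset.sum_congr rfl fun j _ => hpt j, Finset.sum_sub_distrib, Finset.sum_ite_eq',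
    Finset.sum_ite_eq', if_pos (Finset.mem_univ _), if_pos (Finset.mem_univ _), ← smul_sub]
  congr 2
  · have := psi_rep U c3 g
    rw [hc3] at this ⊢
    exact this.symm
  · have := psi_rep U c4 (g * gm G (rep G A * (cox G).simple t))
    rw [hc4] at this ⊢
    rw [← this]
    show Psi U (T.erase t) _ = Psi U (T.erase t) _
    congr 1
    rw [Subgroup.coe_mul, gm_val G A t htA]
    show (g : W G) * (rep G A * (cox G).simple t * (rep G (insert t A))⁻¹) * rep G (insert t A) = _
    group

/-- **injectivity** -/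
theorem harm_zero (n : ℕ) (h : L2Van G n) (U : (davis G).ι → (th G).ker → ℝ)
    (hdeg : ∀ i, (davis G).deg i ≠ n → ∀ g, U i g = 0) (hs : ∀ i, Summable fun g => U i g ^ 2)
    (hd : ∀ j g, ∑ i, Lam (fun γ => U i (g * γ⁻¹)) ((davis G).D i j) = 0)
    (hδ : ∀ i g, ∑ j, Lam (fun γ => U j (g * γ)) ((davis G).D i j) = 0) : ∀ i g, U i g = 0 := by
  classical
  have hsupp : ∀ (T : Finset V) w, ¬ (G.IsClique (T : Set V) ∧ T.card = n) → Psi U T w = 0 := by
    intro T w hT
    unfold Psi
    by_cases hc : G.IsClique (T : Set V)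
    · rw [dif_pos hc, hdeg (ix T hc w) (fun h0 => hT ⟨hc, h0⟩), mul_zero]
    · rw [dif_neg hc]
  have hharm : IsHarm G n fun w T => Psi U T w := by
    refine ⟨fun w T hT => hsupp T w hT, fun w T t ht => psi_anti U T ht w, ?_, fun w T => ?_, fun w T hT => ?_⟩
    · -- summability
      have h1 : ∀ T : Finset V, Summable fun w : W G => Psi U T w ^ 2 := by
        intro T
        by_cases hc : G.IsClique (T : Set V)
        · let F : ((davis G).ι × Finset V) × (th G).ker → ℝ := fun p => U p.1.1 p.2 ^ 2
          have hF : Summable F := by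
            rw [summable_prod_of_nonneg (fun p => sq_nonneg _)]
            exact ⟨fun x => hs x.1, Summable.of_finite⟩
          let e : W G → ((davis G).ι × Finset V) × (th G).ker := fun w => ((ix T hc w, par G w ∩ T), gg T w)
          have he : Function.Injective e := by
            intro a b hab
            simp only [e, Prod.mk.injEq] at hab
            obtain ⟨⟨h2, h3⟩, h4⟩ := hab
            have h5 : par G a \ T = par G b \ T := congrArg (fun x : (davis G).ι => x.1.2) h2
            rw [decomp T a, decomp T b, h3, h4, h5]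
          refine (hF.comp_injective he).congr fun w => ?_
          show U (ix T hc w) (gg T w) ^ 2 = Psi U T w ^ 2
          unfold Psi
          have hk : ((-1 : ℝ) ^ (par G w ∩ T).card) ^ 2 = 1 := by
            rw [← pow_mul, mul_comm, pow_mul]
            norm_num
          rw [dif_pos hc, mul_pow, hk, one_mul]
        · have : (fun w : W G => Psi U T w ^ 2) = fun _ => 0 := by
            funext w
            rw [hsupp T w (fun h0 => hc h0.1)]
            simp
          rw [this]
          exact summable_zero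
      have h2 : Summable fun x : Finset V × W G => Psi U x.1 x.2 ^ 2 := by
        rw [summable_prod_of_nonneg (fun p => sq_nonneg _)]
        exact ⟨fun T => h1 T, Summable.of_finite⟩
      exact h2.comp_injective (i := Prod.swap) Prod.swap_injective
    · -- the cycle condition
      have h1 : mulD U = 0 := by
        funext j g
        rw [mulD_Lam, hd]
        rfl
      have h2 : Psi (mulD U) T w = 0 := by
        rw [h1]
        unfold Psi
        by_cases hc : G.IsClique (T : Set V)
        · rw [dif_pos hc]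
          exact mul_zero _
        · rw [dif_neg hc]
      rw [psi_mulD] at h2
      unfold bdf at h2
      rw [← h2]
      exact Finset.sum_congr rfl fun v _ => by rw [zsmul_eq_mul]
    · -- the cocycle condition
      let E : W G → ℝ := fun w => ∑ t ∈ T, (sg t (T.erase t) : ℝ) *
        (Psi U (T.erase t) w - Psi U (T.erase t) (w * (cox G).simple t))
      show E w = 0
      have hE : ∀ t' ∈ T, ∀ w, E (w * (cox G).simple t') = - E w := by
        intro t' ht' w
        simp only [E]
        rw [← Finset.sum_neg_distrib]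
        refine Finset.sum_congr rfl fun t ht => ?_
        by_cases htt : t = t'
        · subst htt
          rw [mul_mul_simple]
          ring
        · have h3 : t' ∈ T.erase t := Finset.mem_erase.2 ⟨fun h0 => htt h0.symm, ht'⟩
          have h4 : w * (cox G).simple t' * (cox G).simple t = w * (cox G).simple t * (cox G).simple t' := by
            rw [mul_assoc, mul_assoc, simple_comm G t' t (hT ht' ht (fun h0 => htt h0.symm))]
          rw [h4, psi_anti U _ h3, psi_anti U _ h3]
          ring
      rw [decomp T w, anti_rep hE Finset.inter_subset_right]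
      have h5 : E ((gg T w : W G) * rep G (par G w \ T)) = 0 := by
        have h6 := delta_eq U (ix T hT w) (gg T w)
        rw [hδ] at h6
        refine Eq.trans ?_ h6.symm
        refine Finset.sum_congr rfl fun t _ => ?_
        rw [zsmul_eq_mul]
        rfl
      rw [h5, mul_zero]
  have h0 := h _ hharm
  intro i g
  rw [← psi_rep U i g]
  exact congrFun (congrFun h0 _) _

theorem inj_of (n : ℕ) (h : L2Van G n) (v : L2Pow (th G).ker ((davis G).toFree.rank n))
    (hd : ∀ j g, ∑ i, Lam (fun γ => ext (davis G) n v i (g * γ⁻¹)) ((davis G).D i j) = 0)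
    (hδ : ∀ i g, ∑ j, Lam (fun γ => ext (davis G) n v j (g * γ)) ((davis G).D i j) = 0) : v = 0 := by
  have hre := harm_zero n h (fun i g => (ext (davis G) n v i g).re)
    (fun i hi g => by rw [ext_deg _ _ _ _ hi]; rfl)
    (fun i => Summable.of_nonneg_of_le (fun g => sq_nonneg _) (fun g => by
      have := Complex.abs_re_le_norm (ext (davis G) n v i g)
      rw [← sq_abs]
      exact pow_le_pow_left₀ (abs_nonneg _) this 2) (ext_summable (davis G) n v i))
    (fun j g => by
      have h1 := congrArg Complex.reAddGroupHom (hd j g)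
      rw [map_sum, map_zero] at h1
      rw [← h1]
      exact Finset.sum_congr rfl fun i _ => (map_Lam Complex.reAddGroupHom _ _).symm)
    (fun j g => by
      have h1 := congrArg Complex.reAddGroupHom (hδ j g)
      rw [map_sum, map_zero] at h1
      rw [← h1]
      exact Finset.sum_congr rfl fun i _ => (map_Lam Complex.reAddGroupHom _ _).symm)
  have him := harm_zero n h (fun i g => (ext (davis G) n v i g).im)
    (fun i hi g => by rw [ext_deg _ _ _ _ hi]; rfl)
    (fun i => Summable.of_nonneg_of_le (fun g => sq_nonneg _) (fun g => by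
      have := Complex.abs_im_le_norm (ext (davis G) n v i g)
      rw [← sq_abs]
      exact pow_le_pow_left₀ (abs_nonneg _) this 2) (ext_summable (davis G) n v i))
    (fun j g => by
      have h1 := congrArg Complex.imAddGroupHom (hd j g)
      rw [map_sum, map_zero] at h1
      rw [← h1]
      exact Finset.sum_congr rfl fun i _ => (map_Lam Complex.imAddGroupHom _ _).symm)
    (fun j g => by
      have h1 := congrArg Complex.imAddGroupHom (hδ j g)
      rw [map_sum, map_zero] at h1
      rw [← h1]
      exact Finset.sum_congr rfl fun i _ => (map_Lam Complex.imAddGroupHom _ _).symm)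
  exact ext_zero _ n v fun i g => Complex.ext (hre i g) (him i g)

/-- The Laplacians are injective. -/
theorem lap_inj (h : ∀ i, L2Van G i) : ∀ n v, (davis G).toFree.laplacian n v = 0 → v = 0
  | 0, v, hv => inj_of 0 (h 0) v (ext_d0 _ v) (ext_adj _ 0 v (lap_ker_zero _ v hv))
  | n + 1, v, hv => by
    have := lap_ker ((davis G).toFree.l2d n) ((davis G).toFree.l2d (n + 1)) v hv
    exact inj_of (n + 1) (h (n + 1)) v (ext_d _ n v this.1) (ext_adj _ (n + 1) v this.2)

end davis

/-- det-`L²`-acyclicity from the injectivity of the Laplacians over a residually finite group -/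
theorem det_acyclic {Γ : Type} [Group Γ] (hR : ResFin Γ) (C : FreeCx Γ) (h : ∀ n v, C.laplacian n v = 0 → v = 0) :
    C.DetL2Acyclic := by
  obtain ⟨N, hN, hfin, hanti, hinf⟩ := hR
  intro n
  constructor
  · exact FreeCx.dimKer_of_inj _ (h n)
  · by_cases hn : C.rank n = 0
    · exact fkDet_pos_of_eq_zero hn _
    · have : NeZero (C.rank n) := ⟨hn⟩
      have : ∀ i, Finite (Γ ⧸ N i) := fun i => @Subgroup.finite_quotient_of_finiteIndex _ _ _ (hfin i)
      have hinj := h n
      rw [C.laplacian_eq] at hinj ⊢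
      exact fkDet_pos N hanti hinf _ hinj

/-- **P4A** -/
theorem p4a : P4A := by
  intro V _ _ G h
  exact det_acyclic (p4r V G) _ (lap_inj h)

end Pool.Agent.U171.LT
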